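import Pool.Agent.H699.T.Prob

set_option autoImplicit false

namespace Pool.Agent.H225.T.COUNT

open Finset Classical Pool.Agent.H699.T

theorem sum_supp (K N : ℕ) (x : ℝ) :
    ∑ h : Fin N → Fin (K + 1), x ^ (univ.filter fun v => (h v : ℕ) ≠ 0).card = (1 + K * x) ^ N := by
  have h1 : ∀ h : Fin N → Fin (K + 1), x ^ (univ.filter fun v => (h v : ℕ) ≠ 0).card =
      ∏ v, (if (h v : ℕ) ≠ 0 then x else 1) := by
    intro h
    rw [Finset.prod_ite, Finset.prod_const, Finset.prod_const_one, mul_one]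
  have h2 := Finset.prod_univ_sum (R := ℝ) (fun _ : Fin N => (univ : Finset (Fin (K + 1))))
    (fun _ a => if (a : ℕ) ≠ 0 then x else 1)
  rw [Fintype.piFinset_univ] at h2
  rw [Finset.sum_congr rfl fun h _ => h1 h, ← h2]
  have h3 : (∑ a : Fin (K + 1), if (a : ℕ) ≠ 0 then x else 1) = 1 + K * x := by
    rw [Fin.sum_univ_succ]
    simp
  rw [Finset.prod_congr rfl fun _ _ => h3, Finset.prod_const, Finset.card_univ, Fintype.card_fin]

theorem t_COUNT : S_COUNT := by
  intro K ζ hζ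
  obtain ⟨x, hx0, hx1, hKx⟩ : ∃ x : ℝ, 0 < x ∧ x ≤ 1 ∧ K * x ≤ ζ / 2 := by
    refine ⟨min 1 (ζ / (2 * (K + 1))), lt_min one_pos (by positivity), min_le_left _ _, ?_⟩
    have h1 : (K : ℝ) * min 1 (ζ / (2 * (K + 1))) ≤ (K + 1) * (ζ / (2 * (K + 1))) :=
      mul_le_mul (by linarith) (min_le_right _ _) (le_min zero_le_one (by positivity)) (by positivity)
    have h2 : ((K : ℝ) + 1) * (ζ / (2 * (K + 1))) = ζ / 2 := by field_simp
    linarith
  have hL : 0 ≤ -Real.log x := by
    have := Real.log_nonpos hx0.le hx1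
    linarith
  refine ⟨ζ / (2 * (-Real.log x + 1)), by positivity, fun N => ?_⟩
  have hδ : ζ / (2 * (-Real.log x + 1)) * (-Real.log x) ≤ ζ / 2 := by
    rw [div_mul_eq_mul_div, div_le_div_iff₀ (by positivity) (by norm_num)]
    nlinarith
  set δ : ℝ := ζ / (2 * (-Real.log x + 1)) with hδd
  have hlow : ∀ h ∈ (univ : Finset (Fin N → Fin (K + 1))).filter
      (fun h => ((univ.filter fun v => (h v : ℕ) ≠ 0).card : ℝ) ≤ δ * N),
      Real.exp (-(δ * N * (-Real.log x))) ≤ x ^ (univ.filter fun v => (h v : ℕ) ≠ 0).card := by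
    intro h hh
    have h1 := (Finset.mem_filter.1 hh).2
    rw [← Real.rpow_natCast, Real.rpow_def_of_pos hx0, Real.exp_le_exp]
    nlinarith
  have h1 : (((univ : Finset (Fin N → Fin (K + 1))).filter
      (fun h => ((univ.filter fun v => (h v : ℕ) ≠ 0).card : ℝ) ≤ δ * N)).card : ℝ) *
      Real.exp (-(δ * N * (-Real.log x))) ≤ (1 + K * x) ^ N := by
    rw [← sum_supp, ← nsmul_eq_mul]
    refine (Finset.card_nsmul_le_sum _ _ _ hlow).trans ?_
    exact Finset.sum_le_sum_of_subset_of_nonneg (Finset.filter_subset _ _)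
      fun _ _ _ => by positivity
  have h2 : (1 + K * x) ^ N ≤ Real.exp (K * x * N) := by
    have h3 : 1 + K * x ≤ Real.exp (K * x) := by
      have := Real.add_one_le_exp (K * x)
      linarith
    calc (1 + K * x) ^ N ≤ Real.exp (K * x) ^ N := pow_le_pow_left₀ (by positivity) h3 N
      _ = Real.exp (K * x * N) := by rw [← Real.exp_nat_mul]; congr 1; ring
  have h3 := h1.trans h2
  rw [← le_div_iff₀ (Real.exp_pos _), ← Real.exp_sub] at h3
  refine h3.trans (Real.exp_le_exp.2 ?_)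
  have hN : (0 : ℝ) ≤ N := Nat.cast_nonneg N
  nlinarith

end Pool.Agent.H225.T.COUNT
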