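import Pool.Agent.H699.T.Forest

set_option autoImplicit false

namespace Pool.Agent.H225.T.UNIT

open Finset Classical Pool.Agent.H699.T

section gen

variable {N : ℕ} (V : Finset (Fin N)) (p : Fin N → Fin N) (rk : Fin N → ℕ)

theorem iter_mem (h1 : ∀ v ∈ V, p v ∈ V) {v : Fin N} (hv : v ∈ V) (i : ℕ) : p^[i] v ∈ V := by
  induction i with
  | zero => exact hv
  | succ i ih => rw [Function.iterate_succ_apply']; exact h1 _ ih

theorem fixed_of_le {v : Fin N} {i j : ℕ} (hij : i ≤ j) (h : p (p^[i] v) = p^[i] v) :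
    p^[j] v = p^[i] v := by
  obtain ⟨k, rfl⟩ := Nat.exists_eq_add_of_le hij
  rw [Nat.add_comm i k, Function.iterate_add_apply]
  exact Function.iterate_fixed h k

theorem rk_lt (h1 : ∀ v ∈ V, p v ∈ V) (h2 : ∀ v ∈ V, p v = v ∨ rk (p v) < rk v) {v : Fin N}
    (hv : v ∈ V) (n : ℕ) (hn : ∀ i < n, p (p^[i] v) ≠ p^[i] v) :
    ∀ j, j ≤ n → ∀ i < j, rk (p^[j] v) < rk (p^[i] v) := by
  intro j
  induction j with
  | zero => intro _ i hi; omega
  | succ j ih =>
    intro hj i hi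
    have h3 : rk (p^[j + 1] v) < rk (p^[j] v) := by
      rw [Function.iterate_succ_apply']
      rcases h2 _ (iter_mem V p h1 hv j) with h | h
      · exact absurd h (hn j (by omega))
      · exact h
    rcases Nat.lt_succ_iff_lt_or_eq.1 hi with h | h
    · exact h3.trans (ih (by omega) i h)
    · rw [h]; exact h3

theorem card_iter (h1 : ∀ v ∈ V, p v ∈ V) (h2 : ∀ v ∈ V, p v = v ∨ rk (p v) < rk v) {v : Fin N}
    (hv : v ∈ V) (n : ℕ) (hn : ∀ i < n, p (p^[i] v) ≠ p^[i] v) (S : Finset (Fin N))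
    (hS : ∀ i ≤ n, p^[i] v ∈ S) : n + 1 ≤ S.card := by
  have h3 := rk_lt V p rk h1 h2 hv n hn
  have h4 : ((range (n + 1)).image fun i => p^[i] v).card = n + 1 := by
    rw [Finset.card_image_of_injOn, Finset.card_range]
    intro i hi j hj hij
    simp only [Finset.coe_range, Set.mem_Iio] at hi hj
    have hij' : p^[i] v = p^[j] v := hij
    rcases lt_trichotomy i j with h | h | h
    · have := h3 j (by omega) i h
      rw [hij'] at this
      exact absurd this (lt_irrefl _)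
    · exact h
    · have := h3 i (by omega) j h
      rw [hij'] at this
      exact absurd this (lt_irrefl _)
  rw [← h4]
  apply Finset.card_le_card
  intro x hx
  obtain ⟨i, hi, rfl⟩ := Finset.mem_image.1 hx
  exact hS i (by have := Finset.mem_range.1 hi; omega)

theorem top_fixed (h1 : ∀ v ∈ V, p v ∈ V) (h2 : ∀ v ∈ V, p v = v ∨ rk (p v) < rk v) {v : Fin N}
    (hv : v ∈ V) : p (p^[N] v) = p^[N] v := by
  by_contra h
  have hn : ∀ i < N + 1, p (p^[i] v) ≠ p^[i] v := by
    intro i hi h3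
    have h4 := fixed_of_le p (show i ≤ N by omega) h3
    rw [h4] at h
    exact h h3
  have := card_iter V p rk h1 h2 hv N (fun i hi => hn i (by omega)) univ (fun i _ => Finset.mem_univ _)
  rw [Finset.card_univ, Fintype.card_fin] at this
  omega

/-- the vertices which reach `l` for the first time after `j` steps -/
noncomputable def A (l : Fin N) (j : ℕ) : Finset (Fin N) :=
  V.filter fun x => p^[j] x = l ∧ ∀ i < j, p^[i] x ≠ l

theorem card_A (h1 : ∀ v ∈ V, p v ∈ V) (Δ : ℕ)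
    (hd : ∀ y ∈ V, ∀ S : Finset (Fin N), (∀ x ∈ S, x ∈ V ∧ p x = y ∧ x ≠ y) → S.card ≤ Δ) (l : Fin N) :
    ∀ j, (A V p l j).card ≤ Δ ^ j := by
  intro j
  induction j with
  | zero =>
    rw [pow_zero]
    refine (Finset.card_le_card (t := {l}) ?_).trans (by simp)
    intro x hx
    have := (Finset.mem_filter.1 hx).2.1
    simpa using this
  | succ j ih =>
    have h3 : ∀ x ∈ A V p l (j + 1), p x ∈ A V p l j := by
      intro x hx
      obtain ⟨hx1, hx2, hx3⟩ := Finset.mem_filter.1 hx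
      refine Finset.mem_filter.2 ⟨h1 x hx1, ?_, fun i hi => ?_⟩
      · rw [← Function.iterate_succ_apply]; exact hx2
      · rw [← Function.iterate_succ_apply]; exact hx3 (i + 1) (by omega)
    have h4 := Finset.card_le_mul_card_image_of_maps_to (f := p) h3 Δ (by
      intro y hy
      refine hd y (Finset.mem_filter.1 hy).1 _ fun x hx => ?_
      obtain ⟨hx, hxy⟩ := Finset.mem_filter.1 hx
      obtain ⟨hx1, hx2, hx3⟩ := Finset.mem_filter.1 hx
      refine ⟨hx1, hxy, fun h => ?_⟩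
      have h5 : p x = x := by rw [hxy, h]
      have h6 : p^[j + 1] x = x := Function.iterate_fixed h5 _
      rw [h6] at hx2
      exact hx3 0 (by omega) hx2)
    calc _ ≤ Δ * (A V p l j).card := h4
      _ ≤ Δ * Δ ^ j := Nat.mul_le_mul_left _ ih
      _ = Δ ^ (j + 1) := by ring

theorem geom (Δ : ℕ) : ∀ L : ℕ, ∑ j ∈ range (L + 1), Δ ^ j ≤ (Δ + 1) ^ L := by
  intro L
  induction L with
  | zero => simp
  | succ L ih =>
    rw [Finset.sum_range_succ]
    have h1 : Δ ^ (L + 1) ≤ Δ * (Δ + 1) ^ L := by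
      rw [pow_succ, mul_comm]
      exact Nat.mul_le_mul_left _ (Nat.pow_le_pow_left (by omega) _)
    calc _ ≤ (Δ + 1) ^ L + Δ * (Δ + 1) ^ L := Nat.add_le_add ih h1
      _ = (Δ + 1) ^ (L + 1) := by ring

theorem unit_card (h1 : ∀ v ∈ V, p v ∈ V) (h2 : ∀ v ∈ V, p v = v ∨ rk (p v) < rk v) (Δ L : ℕ)
    (hd : ∀ y ∈ V, ∀ S : Finset (Fin N), (∀ x ∈ S, x ∈ V ∧ p x = y ∧ x ≠ y) → S.card ≤ Δ)
    (hch : ∀ v ∈ V, (univ.filter fun u => ∃ i : ℕ, p^[i] v = u).card ≤ L) (l : Fin N) :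
    (V.filter fun x => p^[N] x = l).card ≤ (Δ + 1) ^ L := by
  have hsub : (V.filter fun x => p^[N] x = l) ⊆ (range L).biUnion (A V p l) := by
    intro x hx
    obtain ⟨hx1, hx2⟩ := Finset.mem_filter.1 hx
    have hex : ∃ j, p^[j] x = l := ⟨N, hx2⟩
    have hj1 : p^[Nat.find hex] x = l := Nat.find_spec hex
    have hj2 : ∀ i < Nat.find hex, p^[i] x ≠ l := fun i hi => Nat.find_min hex hi
    have h3 : ∀ i < Nat.find hex, p (p^[i] x) ≠ p^[i] x := by
      intro i hi h
      have h4 := fixed_of_le p hi.le h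
      rw [hj1] at h4
      exact hj2 i hi h4.symm
    have h5 := card_iter V p rk h1 h2 hx1 _ h3 (univ.filter fun u => ∃ i : ℕ, p^[i] x = u)
      (fun i _ => Finset.mem_filter.2 ⟨Finset.mem_univ _, i, rfl⟩)
    have h6 := hch x hx1
    rw [Finset.mem_biUnion]
    exact ⟨Nat.find hex, Finset.mem_range.2 (by omega), Finset.mem_filter.2 ⟨hx1, hj1, hj2⟩⟩
  calc _ ≤ ((range L).biUnion (A V p l)).card := Finset.card_le_card hsub
    _ ≤ ∑ j ∈ range L, (A V p l j).card := Finset.card_biUnion_le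
    _ ≤ ∑ j ∈ range L, Δ ^ j := Finset.sum_le_sum fun j _ => card_A V p h1 Δ hd l j
    _ ≤ ∑ j ∈ range (L + 1), Δ ^ j := Finset.sum_le_sum_of_subset (Finset.range_mono (by omega))
    _ ≤ (Δ + 1) ^ L := geom Δ L

end gen

theorem mem_prim {N : ℕ} (κ : Fin N → Fin N → ℕ) (v : Fin N) (i : ℕ) : v ∈ prim κ v i := by
  induction i with
  | zero => simp [prim]
  | succ i ih => rw [prim]; exact Finset.mem_insert_of_mem ih

theorem t_UNIT : S_PAR → S_PRIM2 → S_PRIM3 → S_UNIT := by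
  intro hPAR hPR2 hPR3 N κ hκ R hR L Δ
  obtain ⟨⟨rk, hrk⟩, -, hpar3, -⟩ := hPAR N κ hκ R hR
  have hV : ∀ v, v ∈ V0 κ R L Δ ↔ (v ∉ R ∧ ¬ Bad κ R L v ∧ ¬ Hub κ R Δ v) := by
    intro v; unfold V0; simp
  have hp1 : ∀ v, v ∈ V0 κ R L Δ → par κ R v ∈ V0 κ R L Δ → p0 κ R L Δ v = par κ R v := by
    intro v h1 h2
    unfold p0
    rw [if_pos ⟨h1, h2⟩]
  have hp2 : ∀ v, par κ R v ∉ V0 κ R L Δ → p0 κ R L Δ v = v := by
    intro v h2
    unfold p0
    rw [if_neg fun h => h2 h.2]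
  have h1 : ∀ v ∈ V0 κ R L Δ, p0 κ R L Δ v ∈ V0 κ R L Δ := by
    intro v hv
    by_cases h : par κ R v ∈ V0 κ R L Δ
    · rw [hp1 v hv h]; exact h
    · rw [hp2 v h]; exact hv
  have hpne : ∀ v, v ∉ R → par κ R v ≠ v := by
    intro v hv h
    have := hrk v hv
    rw [h] at this
    exact lt_irrefl _ this
  have h2 : ∀ v ∈ V0 κ R L Δ, p0 κ R L Δ v = v ∨ rk (p0 κ R L Δ v) < rk v := by
    intro v hv
    by_cases h : par κ R v ∈ V0 κ R L Δ
    · right
      rw [hp1 v hv h]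
      exact hrk v ((hV v).1 hv).1
    · left; exact hp2 v h
  have hfix : ∀ v ∈ V0 κ R L Δ, (p0 κ R L Δ v = v ↔ par κ R v ∉ V0 κ R L Δ) := by
    intro v hv
    constructor
    · intro h h'
      rw [hp1 v hv h'] at h
      exact hpne v ((hV v).1 hv).1 h
    · exact hp2 v
  have hX : ∀ v ∈ V0 κ R L Δ, ∀ i, X κ R ((p0 κ R L Δ)^[i] v) ⊆ X κ R v := by
    intro v hv i
    induction i with
    | zero => exact Finset.Subset.refl _
    | succ i ih =>
      rw [Function.iterate_succ_apply']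
      have hw := iter_mem _ _ h1 hv i
      by_cases h : par κ R ((p0 κ R L Δ)^[i] v) ∈ V0 κ R L Δ
      · rw [hp1 _ hw h]
        exact (hPR3 N κ hκ R hR _ ((hV _).1 hw).1 ((hV _).1 h).1).2.1.trans ih
      · rw [hp2 _ h]; exact ih
  have hchX : ∀ v ∈ V0 κ R L Δ, ch κ R L Δ v ⊆ X κ R v := by
    intro v hv u hu
    obtain ⟨-, i, rfl⟩ := Finset.mem_filter.1 hu
    exact hX v hv i (mem_prim κ _ _)
  have hcard : ∀ v ∈ V0 κ R L Δ, (ch κ R L Δ v).card ≤ L := by
    intro v hv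
    refine (Finset.card_le_card (hchX v hv)).trans ?_
    rw [(hPR2 N κ hκ R hR v ((hV v).1 hv).1).2.2.2.1]
    have hb := ((hV v).1 hv).2.1
    unfold Bad at hb
    push Not at hb
    obtain ⟨i, hi, hi2⟩ := hb
    have : hit κ R v ≤ i := Nat.sInf_le hi2
    omega
  have hdn : ∀ y ∈ V0 κ R L Δ, ∀ x ∈ V0 κ R L Δ, par κ R x = y → x ∈ dn κ R y := by
    intro y hy x hx hxy
    have hxR := ((hV x).1 hx).1
    have hyR := ((hV y).1 hy).1
    refine Finset.mem_filter.2 ⟨Finset.mem_univ _, hxR, fun h => hpne x hxR (hxy.trans h.symm), ?_⟩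
    have hne : ((fun r => κ x r) '' (R : Set (Fin N))).Nonempty := by
      obtain ⟨r, hr⟩ := hR
      exact ⟨_, r, hr, rfl⟩
    obtain ⟨r, hr, hr2⟩ := Nat.sInf_mem hne
    have h3 := hpar3 x hxR (by rw [hxy]; exact hyR) r hr
    unfold mR
    rw [← hr2, ← hxy]
    exact h3
  have hd : ∀ y ∈ V0 κ R L Δ, ∀ S : Finset (Fin N),
      (∀ x ∈ S, x ∈ V0 κ R L Δ ∧ p0 κ R L Δ x = y ∧ x ≠ y) → S.card ≤ Δ := by
    intro y hy S hS
    have hh := ((hV y).1 hy).2.2
    unfold Hub at hh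
    push Not at hh
    refine (Finset.card_le_card fun x hx => ?_).trans hh
    obtain ⟨hx1, hx2, hx3⟩ := hS x hx
    refine hdn y hy x hx1 ?_
    by_cases h : par κ R x ∈ V0 κ R L Δ
    · rw [← hp1 x hx1 h]; exact hx2
    · rw [hp2 x h] at hx2
      exact absurd hx2 hx3
  refine ⟨fun v hv => ⟨?_, ?_, hchX v hv, hcard v hv, ?_, ?_, ?_⟩, ?_, hdn, ?_⟩
  · exact Finset.mem_filter.2 ⟨Finset.mem_univ _, 0, rfl⟩
  · intro u hu
    obtain ⟨-, i, rfl⟩ := Finset.mem_filter.1 hu
    exact iter_mem _ _ h1 hv i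
  · exact Finset.mem_filter.2 ⟨Finset.mem_univ _, N, rfl⟩
  · intro u hu
    obtain ⟨-, i, rfl⟩ := Finset.mem_filter.1 hu
    unfold top
    rw [← Function.iterate_add_apply, Nat.add_comm, Function.iterate_add_apply]
    exact Function.iterate_fixed (top_fixed _ _ rk h1 h2 hv) i
  · rw [← hfix v hv]
    constructor
    · intro h
      have := top_fixed _ _ rk h1 h2 hv
      unfold top at h
      rwa [h] at this
    · intro h
      exact Function.iterate_fixed h N
  · intro l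
    exact unit_card _ _ rk h1 h2 Δ L hd hcard l
  · intro r0 hr0
    have hr0V : r0 ∉ V0 κ R L Δ := fun h => ((hV r0).1 h).1 hr0
    refine ⟨fun v => if v ∈ V0 κ R L Δ then rk v + 2 else if v = r0 then 0 else 1, ?_, ?_, ?_⟩
    · intro v hv
      unfold pT
      by_cases h : v ∈ V0 κ R L Δ
      · have hr := hrk v ((hV v).1 h).1
        by_cases h' : par κ R v ∈ V0 κ R L Δ
        · simp only [if_pos h, if_pos h']; omega
        · simp only [if_pos h, if_neg h']
          split_ifs <;> omega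
      · simp only [if_neg h, if_neg hr0V, if_neg hv, if_true]
        omega
    · unfold pT
      rw [if_neg hr0V]
    · intro x hx
      have hT1 : ∀ w, w ∈ V0 κ R L Δ → pT κ R L Δ r0 w = par κ R w := by
        intro w hw; unfold pT; rw [if_pos hw]
      have hT2 : ∀ w, w ∉ V0 κ R L Δ → pT κ R L Δ r0 w = r0 := by
        intro w hw; unfold pT; rw [if_neg hw]
      have g1 : ∀ i, ∃ k, (pT κ R L Δ r0)^[k] x = (p0 κ R L Δ)^[i] x := by
        intro i
        induction i with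
        | zero => exact ⟨0, rfl⟩
        | succ i ih =>
          obtain ⟨k, hk⟩ := ih
          have hw := iter_mem _ _ h1 hx i
          rw [Function.iterate_succ_apply']
          by_cases h : par κ R ((p0 κ R L Δ)^[i] x) ∈ V0 κ R L Δ
          · refine ⟨k + 1, ?_⟩
            rw [Function.iterate_succ_apply', hk, hT1 _ hw, hp1 _ hw h]
          · refine ⟨k, ?_⟩
            rw [hp2 _ h]; exact hk
      have g2 : ∀ i, (pT κ R L Δ r0)^[i] x ∈ V0 κ R L Δ →
          ∃ k, (p0 κ R L Δ)^[k] x = (pT κ R L Δ r0)^[i] x := by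
        intro i
        induction i with
        | zero => intro _; exact ⟨0, rfl⟩
        | succ i ih =>
          intro h
          rw [Function.iterate_succ_apply'] at h ⊢
          by_cases hw : (pT κ R L Δ r0)^[i] x ∈ V0 κ R L Δ
          · obtain ⟨k, hk⟩ := ih hw
            refine ⟨k + 1, ?_⟩
            rw [hT1 _ hw] at h ⊢
            rw [Function.iterate_succ_apply', hk, hp1 _ hw h]
          · rw [hT2 _ hw] at h
            exact absurd h hr0V
      ext u
      have e1 : u ∈ anc (pT κ R L Δ r0) r0 x ↔ (u ≠ r0 ∧ ∃ i : ℕ, (pT κ R L Δ r0)^[i] x = u) := by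
        unfold anc; simp
      have e2 : u ∈ ch κ R L Δ x ↔ ∃ i : ℕ, (p0 κ R L Δ)^[i] x = u := by
        unfold ch; simp
      rw [Finset.mem_inter, e1, e2]
      constructor
      · rintro ⟨⟨-, i, rfl⟩, hu⟩
        exact g2 i hu
      · rintro ⟨i, rfl⟩
        have hu := iter_mem _ _ h1 hx i
        exact ⟨⟨fun h => hr0V (h ▸ hu), g1 i⟩, hu⟩

end Pool.Agent.H225.T.UNIT
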